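import Mathlib
import Pool.Agent.H321R2.OSI.Counter
import Pool.Agent.H321R2.OSI.Lower
import Pool.Agent.H321R2.OSI.LowCoh
import Pool.Agent.H321R2.OSI.Unif

set_option autoImplicit false

/-!
# Q1: with constant failure probability the relative error need not be `1 + O(ε)`
-/

namespace Pool.Agent.Results.MP_082b65_an.ConstantFailure

open MeasureTheory Matrix Finset Pool.Agent.H321R2.OSI

/-- The bound of Q1 with the constant `C`, holding with probability at least `p₀`, for oblivious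
subspace injections with failure probability `1/100`. -/
def ConstBound (C p₀ : ℝ) : Prop :=
  ∀ ε : ℝ, 0 < ε → ε < 1 →
    ∀ (n d k r : ℕ), 1 ≤ r → r ≤ d → ∀ (A : Matrix (Fin n) (Fin d) ℝ)
      (W : Type) (_ : MeasurableSpace W) (P : Measure W) (_ : IsProbabilityMeasure P)
      (S : W → Matrix (Fin d) (Fin k) ℝ), IsOSI P S r (1 - ε) (1 / 100) →
        ∃ D : Set W, MeasurableSet D ∧ p₀ ≤ P.real D ∧
          ∀ w ∈ D, frob (A - rsvd A (S w)) ≤ (1 + C * ε) * bestErr A r

lemma bestErr_nonneg {n d : ℕ} (A : Matrix (Fin n) (Fin d) ℝ) (r : ℕ) : 0 ≤ bestErr A r := by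
  unfold bestErr
  apply Real.sInf_nonneg
  rintro e ⟨B, _, rfl⟩
  exact Real.sqrt_nonneg _

/-- One random matrix, which is an oblivious subspace injection with dimension `1`, failure
probability `1/100` and injectivity `1 - ε` for all `ε ≥ 0`, and one matrix `A`, for which the
relative error of the randomized SVD exceeds `1 + 10⁻¹⁰` for every outcome. -/
theorem example_exists : ∃ (n d k : ℕ) (A : Matrix (Fin n) (Fin d) ℝ)
    (W : Type) (_ : MeasurableSpace W) (P : Measure W) (_ : IsProbabilityMeasure P)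
    (S : W → Matrix (Fin d) (Fin k) ℝ), 1 ≤ d ∧
      (∀ ε : ℝ, 0 ≤ ε → IsOSI P S 1 (1 - ε) (1 / 100)) ∧
      ∀ w, (1 + 1 / 10 ^ 10) * bestErr A 1 < frob (A - rsvd A (S w)) := by
  obtain ⟨p, hp9, hp⟩ := Nat.exists_infinite_primes (10 ^ 9)
  haveI : Fact p.Prime := ⟨hp⟩
  obtain ⟨w, hw1, hw2, hw3⟩ := exists_lowcoh (p := p)
  have hpr : (10 : ℝ) ^ 9 ≤ p := by exact_mod_cast hp9
  set s : ℝ := 1 / 5000 with hs
  have hs0 : 0 < s := by rw [hs]; norm_num
  have hs1 : s ≤ 1 := by rw [hs]; norm_num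
  have hs2 : s ^ 2 ≤ 1 := by rw [hs]; norm_num
  have hb : ∀ j, gram (brow s w) j j = 1 := by
    intro j
    refine Fin.cases ?_ (fun l => ?_) j
    · exact gram_brow_zero s w
    · rw [gram_brow_succ s hs2, hw1]; ring
  have hinv : 1 / ((p : ℝ) - 1) ≤ 1 / 10 ^ 8 := by
    apply one_div_le_one_div_of_le (by norm_num)
    linarith
  have hμ : ∀ j l, j ≠ l → |gram (brow s w) j l| ≤ 1 / 5000 := by
    intro j l
    refine Fin.cases ?_ (fun j => ?_) j
    · refine Fin.cases ?_ (fun l => ?_) l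
      · intro h; exact absurd rfl h
      · intro _
        rw [gram_brow_zero_succ, hs, abs_of_pos (by norm_num)]
    · refine Fin.cases ?_ (fun l => ?_) l
      · intro _
        rw [gram_symm, gram_brow_zero_succ, hs, abs_of_pos (by norm_num)]
      · intro h
        rw [gram_brow_succ s hs2]
        have h1 := hw2 j l (fun hh => h (congrArg Fin.succ hh))
        have h2 : |s ^ 2 + (1 - s ^ 2) * ∑ i, w j i * w l i| ≤
            s ^ 2 + (1 - s ^ 2) * (1 / ((p : ℝ) - 1)) := by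
          refine (abs_add_le _ _).trans ?_
          rw [abs_of_nonneg (sq_nonneg s), abs_mul, abs_of_nonneg (by linarith : 0 ≤ 1 - s ^ 2)]
          gcongr
        refine h2.trans ?_
        have h3 : (1 - s ^ 2) * (1 / ((p : ℝ) - 1)) ≤ 1 * (1 / 10 ^ 8) := by
          apply mul_le_mul (by nlinarith) hinv _ zero_le_one
          apply div_nonneg zero_le_one
          linarith
        rw [hs] at h3 ⊢
        norm_num at h3 ⊢
        linarith
  have hN : 0 < p ^ 3 := pow_pos hp.pos 3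
  have hk : (((p ^ 2 : ℕ) : ℝ) + 1) ≤ ((p ^ 3 : ℕ) : ℝ) * s ^ 2 / 4 := by
    push_cast
    rw [hs]
    have h1 : (0 : ℝ) < p := by linarith
    have h2 : (1 : ℝ) ≤ (p : ℝ) ^ 2 := by nlinarith
    have h3 : (10 : ℝ) ^ 9 * (p : ℝ) ^ 2 ≤ p ^ 3 := by
      have : (p : ℝ) ^ 3 = p * p ^ 2 := by ring
      rw [this]
      gcongr
    norm_num at h3 ⊢
    linarith
  refine ⟨p ^ 3 + 1, p ^ 3 + 1, p ^ 2 + 1, diagonal (avec (p ^ 3)), Smp 200 (p ^ 3 + 1), inferInstance,
    unif (Smp 200 (p ^ 3 + 1)), inferInstance, Smat 200 (brow s w), by omega, ?_, ?_⟩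
  · intro ε hε
    exact isOSI_Smat (by norm_num) _ hb (1 / 5000) hμ (by norm_num) _ (by norm_num) ε hε
  · intro ω
    have h1 := err_lower (K := 200) (by norm_num) s hs1 hs0 w hw3 hN hk ω
    have h2 := bestErr_le (p ^ 3)
    have h3 := bestErr_nonneg (diagonal (avec (p ^ 3))) 1
    have hNr : (0 : ℝ) < ((p ^ 3 : ℕ) : ℝ) := by exact_mod_cast hN
    have h4 : 0 ≤ frob (diagonal (avec (p ^ 3)) - rsvd (diagonal (avec (p ^ 3)))
        (Smat 200 (brow s w) ω)) := Real.sqrt_nonneg _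
    have h5 : (bestErr (diagonal (avec (p ^ 3))) 1) ^ 2 ≤ ((p ^ 3 : ℕ) : ℝ) := by
      calc (bestErr (diagonal (avec (p ^ 3))) 1) ^ 2 ≤ (Real.sqrt ((p ^ 3 : ℕ) : ℝ)) ^ 2 :=
            pow_le_pow_left₀ h3 h2 2
        _ = _ := Real.sq_sqrt hNr.le
    by_contra hcon
    rw [not_lt] at hcon
    have h6 : frob (diagonal (avec (p ^ 3)) - rsvd (diagonal (avec (p ^ 3)))
        (Smat 200 (brow s w) ω)) ^ 2 ≤
        ((1 + 1 / 10 ^ 10) * bestErr (diagonal (avec (p ^ 3))) 1) ^ 2 :=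
      pow_le_pow_left₀ h4 hcon 2
    rw [mul_pow] at h6
    have h7 : ((p ^ 3 : ℕ) : ℝ) * (1 + s ^ 2 / 4) ≤ (1 + 1 / 10 ^ 10) ^ 2 * ((p ^ 3 : ℕ) : ℝ) := by
      refine h1.trans (h6.trans ?_)
      gcongr
    rw [hs] at h7
    nlinarith

/-- **Negative answer to Q1.** (1) There is an absolute constant `c > 0` (here `10⁻¹⁰`), a matrix `A`
and a random matrix which for every `ε ≥ 0` is an oblivious subspace injection with dimension `1`,
injectivity `1 - ε` and failure probability `1/100`, such that for every outcome the error of the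
randomized SVD is more than `(1 + c)` times the best rank-one error. (2) Hence no bound
`(1 + C ε)`, `0 < ε < 1`, holds with any positive probability `p₀`. -/
theorem result :
    (∃ (n d k : ℕ) (A : Matrix (Fin n) (Fin d) ℝ)
      (W : Type) (_ : MeasurableSpace W) (P : Measure W) (_ : IsProbabilityMeasure P)
      (S : W → Matrix (Fin d) (Fin k) ℝ), 1 ≤ d ∧
        (∀ ε : ℝ, 0 ≤ ε → IsOSI P S 1 (1 - ε) (1 / 100)) ∧
        ∀ w, (1 + 1 / 10 ^ 10) * bestErr A 1 < frob (A - rsvd A (S w))) ∧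
    ∀ C p₀ : ℝ, 0 < p₀ → ¬ ConstBound C p₀ := by
  refine ⟨example_exists, fun C p₀ hp₀ hB => ?_⟩
  obtain ⟨n, d, k, A, W, mW, P, hP, S, hd, hS, hA⟩ := example_exists
  set ε : ℝ := 1 / (10 ^ 10 * (|C| + 1)) with hε
  have hC : 0 ≤ |C| := abs_nonneg C
  have hε0 : 0 < ε := by rw [hε]; positivity
  have hε1 : ε < 1 := by
    rw [hε, div_lt_one (by positivity)]
    nlinarith
  obtain ⟨D, hD1, hD2, hD3⟩ := hB ε hε0 hε1 n d k 1 le_rfl hd A W mW P hP S (hS ε hε0.le)
  have hne : D.Nonempty := by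
    by_contra h
    rw [Set.not_nonempty_iff_eq_empty] at h
    rw [h] at hD2
    simp at hD2
    linarith
  obtain ⟨w, hw⟩ := hne
  have h1 := hD3 w hw
  have h2 := hA w
  have h3 := bestErr_nonneg A 1
  have h4 : C * ε ≤ 1 / 10 ^ 10 := by
    have h5 : C * ε ≤ (|C| + 1) * ε := by
      apply mul_le_mul_of_nonneg_right _ hε0.le
      linarith [le_abs_self C]
    refine h5.trans (le_of_eq ?_)
    rw [hε]
    field_simp
  have h6 : (1 + C * ε) * bestErr A 1 ≤ (1 + 1 / 10 ^ 10) * bestErr A 1 := by gcongr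
  linarith

end Pool.Agent.Results.MP_082b65_an.ConstantFailure
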